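import Pool.Agent.N110.NV.Fin
import Pool.Agent.N110.CanS
import Pool.Agent.R887.NefP

/-!
Minimal varieties of irregularity zero with dominant rational self-maps whose greatest dynamical
degree is not attained at two consecutive indices: the canonical divisor is torsion, in particular
semiample.
-/

set_option autoImplicit false

open FF Pool.Agent.W602.GT Pool.Agent.Y172 Pool.Agent.R887 Pool.Agent.N110

/-- Let `X` be a projective variety of dimension `n ≥ 1` with canonical singularities (a projective
manifold, for instance), with generic point `y`, of irregularity zero, and suppose that `K_X` is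
nef. Let `S` be a set of dominant rational self-maps of `X`, invertible or not, given by the
endomorphisms of the function field, of bounded degrees (a single map, for instance), and suppose
that the greatest of the joint dynamical degrees `λ 0, ..., λ n` of `S` (the dynamical degrees of
`f`, if `S = {f}`) is not attained at two consecutive indices. Then `m K_X` is trivial for some
`m ≥ 1`: it has a section `ω ≠ 0` without zeros, and `K_X` is semiample. -/
theorem Pool.Agent.Results.MP_97d78d_ag.AbundanceHyperbolic.result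
    {K : Type} [Field K] [Algebra ℂ K] {N n : ℕ} {y : Fin (N + 1) → K} (hy : NormalModel y)
    (hn : Algebra.trdeg ℂ K = n) (hn0 : 0 < n) (hcan : Canonical y n) (hnef : CanonicalNef y n)
    (hq : IrregularityZero y) {S : Set (K →ₐ[ℂ] K)} {C : ℕ}
    (hC : ∀ φ ∈ S, selfDegree φ y n 1 ≤ C)
    (hdeg : ∀ j, j + 1 ≤ n → ∃ a ≤ 1, ∃ p ≤ n,
      selfJointDegree S y n (j + a) < selfJointDegree S y n p) :
    ∃ m : ℕ, 1 ≤ m ∧ ∃ ω : (Fin n → Derivation ℂ K K) → K, IsSection y n m 0 ω ∧ ω ≠ 0 ∧
      ∀ P, IsPrimeDivisor y P → OrdEq P ω 0 := by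
  have hz : {P : Place ℂ K | IsPrimeDivisor y P ∧ (0 : Place ℂ K → ℚ) P ≠ 0}.Finite :=
    Set.finite_empty.subset (by rintro P ⟨-, h⟩; exact h rfl)
  have hln := logNef_of_canonicalNef hnef
  have key : NumDimLt y n 0 1 := by
    by_contra hnum
    obtain ⟨j, hj, h4⟩ := splateau hy hn hz hln
      (fun φ _ => selfPullLe_canonical hy hn hcan φ) hC (by omega : 1 ≤ n) hnum
    obtain ⟨a, ha, p, hp, hlt⟩ := hdeg j hj
    exact absurd hlt (not_lt.2 (h4 a ha p hp))
  obtain ⟨m, hm, ω, hω0, hω⟩ := NV.nonvanishing hy hn hn0 hz
    (NV.psef_of_nef hy hn hn0 hln) key hq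
  refine ⟨m, hm, ω, by rwa [smul_zero] at hω, hω0, fun P hP => ?_⟩
  have h2 := nef_trivialP hy hn hn0 key hln hm hω hω0 P hP
  rwa [Pi.zero_apply, mul_zero, neg_zero] at h2
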