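import Pool.Agent.N110.SE.Fin
import Pool.Agent.N110.CanS
import Pool.Agent.N110.RK.Stat
import Pool.Agent.N110.NV.Fin
import Pool.Agent.R887.NefP
import Pool.Agent.R887.Exc

/-!
Semigroups of commuting dominant rational self-maps which preserve a nef divisor `K_X + Δ`: a bound
for the numerical dimension by the growth rank, and abundance.
-/

set_option autoImplicit false

open FF Pool.Agent.W602.GT Pool.Agent.Y172 Pool.Agent.R887 Pool.Agent.N110

/-- Let `X` be a normal projective variety of dimension `n ≥ 1`, with generic point `y`, and `Δ ≥ 0`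
a `ℚ`-divisor on `X` with `K_X + Δ` nef. Let `ℕ ^ r` act on `X` by dominant rational self-maps `f_a`
(commuting dominant rational self-maps `f_1, ..., f_r`, invertible or not), given by the
endomorphisms `φ a = f_a^*` of the function field. Suppose that `f_a^* (K_X + Δ)` is at most
`K_X + Δ` over the prime divisors of `X`, or that `Δ = 0` and `X` has canonical singularities (no
condition on the maps then). Let `s ≥ 1` be at most the growth rank: for `u` in `ℤ ^ r` with positive
part `a` and negative part `b` the degree `D(u)` of the correspondence `f_a ∘ f_b⁻¹` is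
`f_a^* H · (f_b^* H) ^ (n - 1) / deg f_b`, and `D` grows subexponentially only along linear subspaces
of `ℝ ^ r` of codimension at least `s`. For instance `s = r` if `max (D(u), D(-u)) ≥ c exp (δ |u|)`
for some `c, δ > 0`. Then `s ≤ n`, the numerical dimension of `K_X + Δ` is at most `n - s`, and so is
the Kodaira dimension. If the Kodaira dimension is at least `n - s` then the Kodaira dimension and
the numerical dimension are equal. If `s = n` and `K_X + Δ` is effective up to `ℚ`-linear equivalence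
or the irregularity of `X` is zero, then they are zero, also for the numerical dimension defined by
the growth of the number of the sections of `m (K_X + Δ) + A`, and `m (K_X + Δ)` is trivial for some
`m ≥ 1`: it has a section `ω ≠ 0` without zeros. -/
theorem Pool.Agent.Results.MP_97d78d_ag.CommutingSelfMaps.result
    {K : Type} [Field K] [Algebra ℂ K] {N n : ℕ} {y : Fin (N + 1) → K} (hy : NormalModel y)
    (hn : Algebra.trdeg ℂ K = n) (hn0 : 0 < n) {Δ : Place ℂ K → ℚ} (hΔ : Effective y Δ)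
    (hnef : LogNef y n Δ) {r s : ℕ} (hs : 0 < s) {φ : (Fin r → ℕ) → (K →ₐ[ℂ] K)}
    (hφ : ∀ u v, φ (u + v) = φ u * φ v)
    (hP : (∀ v, SelfPullLe (φ v) y n Δ) ∨ (Δ = 0 ∧ Canonical y n))
    (hrank : SE.CorrRankGe φ y n s ∨ (s = r ∧ SE.CorrExpGrowth φ y n)) :
    s ≤ n ∧ NumDimLt y n Δ (n - s + 1) ∧ ¬ KappaGe y n Δ (n - s + 1) ∧
      (KappaGe y n Δ (n - s) → Abundant y n Δ) ∧
      (s = n → KappaGe y n Δ 0 ∨ IrregularityZero y →
        (kodairaDim y n Δ = ((0 : ℕ) : WithBot ℕ) ∧
          ∀ A, Effective y A → Integral y A → numericalDim y n Δ A = ((0 : ℕ) : EReal)) ∧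
        ∃ m : ℕ, 1 ≤ m ∧ ∃ ω : (Fin n → Derivation ℂ K K) → K, IsSection y n m (m • Δ) ω ∧
          ω ≠ 0 ∧ ∀ P, IsPrimeDivisor y P → OrdEq P ω (-(m * Δ P))) := by
  have hP' : ∀ v, SelfPullLe (φ v) y n Δ := by
    rcases hP with h | ⟨rfl, hcan⟩
    · exact h
    · exact fun v => selfPullLe_canonical hy hn hcan (φ v)
  have hrank' : SE.CorrRankGe φ y n s := by
    rcases hrank with h | ⟨rfl, h⟩
    · exact h
    · exact SE.corrRank_of_exp h
  obtain ⟨h1, h2⟩ := SE.semi_main SE.stmSJ SE.stmSG SE.stmSD hy hn hn0 hΔ.2 hnef hs hφ hP' hrank'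
  refine ⟨h1, h2, ?_, fun h => ⟨n - s, h, h2⟩, ?_⟩
  · rintro ⟨m, hm, ω, E, hω, h0, hind⟩
    exact kappa_lt hy hn (by omega) h2 hm hω h0 hind
  · intro h3 h4
    rw [show n - s + 1 = 1 by omega] at h2
    obtain ⟨m, hm, ω, hω0, hω⟩ : ∃ m : ℕ, 1 ≤ m ∧ ∃ ω : (Fin n → Derivation ℂ K K) → K, ω ≠ 0 ∧
        IsSection y n m (m • Δ) ω := by
      rcases h4 with ⟨m, hm, ω, E, hω, h0, -⟩ | hq
      · refine ⟨m, hm, ω 0, fun h5 => h0 ?_, hω 0⟩
        rw [h5]
        rfl
      · exact NV.nonvanishing hy hn hn0 hΔ.2 (NV.psef_of_nef hy hn hn0 hnef) h2 hq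
    exact ⟨abundance_zero hy hn hn0 hΔ h2 hm hω hω0, m, hm, ω, hω, hω0,
      fun P hP => nef_trivialP hy hn hn0 h2 hnef hm hω hω0 P hP⟩
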