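import Pool.Agent.N115.IM.Top

/-!
# Abundance for the images of bounded degree of the varieties of the vectors whose powers are the
values of a polynomial

MP_97d78d_ag, Q1, for projective manifolds. Let `a 0, ..., a N` be distinct constants and `m ≥ 2`.
Let `X ⊆ P^N` be the `n`-dimensional complete intersection of the points `x` for which there is a
polynomial `H` of degree at most `n` such that `x i ^ m = H (a i)` for all `i`, and let `Z` be a
closed subvariety of `X`, of any dimension `w ≥ 1`. We consider all the projective manifolds `W`
which are dominated by `Z` with degree at most `r`, and all those with an `r`-valued map to `Z`; no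
assumption is made on the branch loci or on the singularities of the maps.

The function-field language of the starting repository is used. For a projective manifold `W` with
function field `L`: `Psef k L w (fun _ => False)` says that the canonical bundle is pseudo-effective
(which holds if it is nef), `KodGe k L w (fun _ => False) 0` that `κ(W) ≥ 0`, `GeneralType k L w`
that `W` is of general type (`κ(W) = w`), `Ruled k K` that `Z` is birational to the product of a
variety and the projective line (`Pool/Agent/W602/GT`); `IsUniruled k L w`: `W` is uniruled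
(`Pool/Agent/W619/PQ/Defs.lean`); `NumNeg k L w (fun _ => False)`: for every divisor `A` the divisors
`j K_W + A`, `j` large, have no sections, so the numerical dimension is `-∞`
(`Pool/Agent/W619/TW/NDefs.lean`); `coords k y` is the field of the ratios of the homogeneous
coordinates `y`. The parts were written by the helpers 115, 895, 157, 813.
-/

set_option autoImplicit false

open Pool.Agent.W602.GT
open Pool.Agent.W619.PQ (IsUniruled)
open Pool.Agent.W619.TW (NumNeg)

namespace Pool.Agent.Results.MP_97d78d_ag.PolynomialValueAbundance

/-- `K` is the function field, and `y` the generic point in homogeneous coordinates, of a closed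
subvariety `Z` of dimension `w` of the variety `X ⊆ P^N` of the points `x` for which there is a
polynomial of degree at most `n` whose values at the `a i` are the `x i ^ m`; the polynomial of the
generic point is `H`. -/
structure Subvariety {k : Type} [Field k] {N : ℕ} (a : Fin (N + 1) → k) (n m w : ℕ) (K : Type)
    [Field K] [Algebra k K] (y : Fin (N + 1) → K) (H : Polynomial K) : Prop where
  ne : y ≠ 0
  gen : coords k y = ⊤
  dim : Algebra.trdeg k K = w
  deg : H.natDegree ≤ n
  val : ∀ i, y i ^ m = H.eval (algebraMap k K (a i))

/-- Let `m ≥ 2`, `r ≥ 1`, `4 n + (n + 2 r - 1) ^ 2 < 2 (N + 1)`, and let `Z` be a closed subvariety of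
dimension `w ≥ 1` of `X`, with generic polynomial `H`.
**(1)** Assume that `H` is not divisible by the `m`-th power of a polynomial of degree at least `2`.
For every projective manifold `W` dominated by `Z` with degree at most `r` the following are
equivalent: `K_W` is pseudo-effective; `κ(W) ≥ 0`; `κ(W) = w`; `W` is not uniruled; `Z` is not ruled.
Otherwise `ν(W) = -∞`. So `κ(W) = ν(W)` always, and if `K_W` is nef, then it is nef and big, hence
semiample by the base point free theorem.
**(2)** If `Z` is not ruled, then all projective manifolds `W` with generically finite dominant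
rational maps `Z' ⇢ Z` of any degree and `Z' ⇢ W` of degree at most `r` are of general type.
**(3)** The assumption in (1) holds if `n < 2 m`, and if `n < w + 2 (m - 1)`: so it holds for all `Z`
of codimension less than `2 (m - 1)` in `X`. If `Z` is of codimension less than `m - 1` in `X`, for
instance if `Z = X`, then `Z` is not ruled. -/
theorem result {k : Type} [Field k] [CharZero k] [IsAlgClosed k] {N n m r : ℕ} (hm : 2 ≤ m)
    (hr : 1 ≤ r) (hN : 4 * n + (n + 2 * r - 1) ^ 2 < 2 * (N + 1)) (a : Fin (N + 1) → k)
    (ha : Function.Injective a) {K : Type} [Field K] [Algebra k K] {w : ℕ} (hw : 1 ≤ w)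
    {y : Fin (N + 1) → K} {H : Polynomial K} (hZ : Subvariety a n m w K y H) :
    ((∀ q : Polynomial K, 2 ≤ q.natDegree → ¬ q ^ m ∣ H) →
      (∀ (L : Type) [Field L] [Algebra k L] [Algebra L K] [IsScalarTower k L K]
        [FiniteDimensional L K], Module.finrank L K ≤ r →
        [Psef k L w (fun _ => False), KodGe k L w (fun _ => False) 0, GeneralType k L w,
          ¬ IsUniruled k L w, ¬ Ruled k K].TFAE ∧
        (¬ Psef k L w (fun _ => False) → NumNeg k L w (fun _ => False))) ∧
      (¬ Ruled k K → ∀ (K' L : Type) [Field K'] [Field L] [Algebra k K'] [Algebra k L]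
        [Algebra K K'] [Algebra L K'] [IsScalarTower k K K'] [IsScalarTower k L K']
        [FiniteDimensional K K'] [FiniteDimensional L K'], Module.finrank L K' ≤ r →
        GeneralType k L w)) ∧
    (n < 2 * m ∨ n < w + 2 * (m - 1) → ∀ q : Polynomial K, 2 ≤ q.natDegree → ¬ q ^ m ∣ H) ∧
    (n < w + (m - 1) → ¬ Ruled k K) := by
  refine ⟨fun hfac => ⟨fun L _ _ _ _ _ hfr => ?_, fun hnr K' L _ _ _ _ _ _ _ _ _ _ hfr => ?_⟩,
    fun h q hq => ?_, fun h => ?_⟩
  · have hess : Algebra.EssFiniteType k K := essFinite hZ.gen
    have hT := Pool.Agent.N115.IM.below_tfae hm hr hw hN ha hZ.dim hZ.ne hZ.gen hZ.deg hZ.val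
      hfac hfr
    have h01 : ¬ KodGe k L w (fun _ => False) 0 ↔ ¬ Psef k L w (fun _ => False) := hT.out 0 1
    have h12 : ¬ Psef k L w (fun _ => False) ↔ IsUniruled k L w := hT.out 1 2
    have h13 : ¬ Psef k L w (fun _ => False) ↔ ¬ GeneralType k L w := hT.out 1 3
    have h14 : ¬ Psef k L w (fun _ => False) ↔ Ruled k K := hT.out 1 4
    refine ⟨?_, fun h => (Pool.Agent.TH466.QG.neg_below hZ.dim (h14.1 h)).2.2⟩
    tfae_have 1 ↔ 2 := by
      constructor
      · intro h
        by_contra hc
        exact h01.1 hc h
      · intro h
        by_contra hc
        exact h01.2 hc h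
    tfae_have 1 ↔ 3 := by
      constructor
      · intro h
        by_contra hc
        exact h13.2 hc h
      · intro h
        by_contra hc
        exact h13.1 hc h
    tfae_have 1 ↔ 4 := by
      constructor
      · intro h hc
        exact h12.2 hc h
      · intro h
        by_contra hc
        exact h (h12.1 hc)
    tfae_have 1 ↔ 5 := by
      constructor
      · intro h hc
        exact h14.2 hc h
      · intro h
        by_contra hc
        exact h (h14.1 hc)
    tfae_finish
  · exact Pool.Agent.N115.IM.corr_general hm hr hw hN ha hZ.dim hZ.ne hZ.gen hZ.deg hZ.val hfac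
      hnr hfr
  · exact Pool.Agent.N115.IM.no_factor hm hZ.dim hZ.ne hZ.gen hZ.deg hZ.val (d := 2)
      (h.imp (fun h => by omega) fun h => by omega) q hq
  · refine Pool.Agent.N115.IM.not_ruled hm hw ?_ ha hZ.dim hZ.ne hZ.gen hZ.deg hZ.val (Or.inr h)
    have h1 : n + 1 ≤ n + 2 * r - 1 := by omega
    have h2 : (n + 1) ^ 2 ≤ (n + 2 * r - 1) ^ 2 := Nat.pow_le_pow_left h1 2
    omega

end Pool.Agent.Results.MP_97d78d_ag.PolynomialValueAbundance
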