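import Pool.Agent.N145.SX.MFin

/-!
# Abundance for varieties dominated by the product of several varieties and a curve

Let `V = X 0 × ... × X (k - 1) × C`, where the `X i` are smooth projective varieties over `ℂ` of
dimension `m i` and `C` is a smooth projective curve of any genus. Let `V ⇢ W` be a dominant rational
map of finite degree to a variety `W`. It need not be related to the product structure, and it need not
be the quotient by a group. Let `W_i` be the image of `V` in `W × X 0 × ... × X (i - 1)`, and let
`d i` be the degree over `W_i` of the image of `V` in `W_i × X i`; for example `W_0 = W`, and `d 0` is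
the number of different points of `X 0` below a general fibre of `V ⇢ W`. The product of the `d i`
is at most the degree of `V ⇢ W`.

Suppose that for all `i` the canonical forms of `X i` separate `2 d i` general points: for some nonempty
open subset `U` of `X i` any `2 d i` different points of `U` impose independent conditions on
`H⁰(X i, K)`. For example, `X i` is a smooth hypersurface of degree at least `m i + 1 + 2 d i` in
projective space, or a curve of gonality greater than `2 d i`, or more generally `K - (2 d i - 1) H` is
effective for a divisor `H` which defines a birational map to a projective space. Then:

* `K_W` is pseudo-effective if and only if `κ(W) ≥ dim W - 1`, if and only if `W` is not uniruled;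
* the Iitaka dimension is attained by the canonical forms: if `κ(W) ≥ j` for a number `j ≥ 0` then
  the image of the canonical map of `W`, given by `H⁰(K_W)`, has dimension at least `j`.

So if a projective manifold `Y` which is birational to `W` has nef canonical bundle, then
`κ(Y) ≥ dim Y - 1`, and hence `K_Y` is semiample (Kawamata, Lai; this is not part of the Lean proof),
and the Iitaka fibration of `Y` is, up to a finite map, the canonical map.

There is no condition on the irregularity: in the first example `q(X i) = 0` if `m i > 1`, and
`q(W) = 0` is possible, so the Albanese map of `W` may be constant, and the known theorems on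
abundance for varieties of large Albanese dimension do not apply. Some condition on the points is
necessary: a Kummer surface `W = (X × C) / {± 1}` with elliptic curves `X` and `C` (so `d = 2`, and one
point is separated) has `κ(W) = 0`, and a bielliptic surface `W` with `X`, `C` elliptic, `d = 2`, has
`κ(W) = 0` and `p_g(W) = 0`.

Proof. Let `f i` be canonical forms on the `X i` and `φ` a differential on `C`. The product of their
pullbacks is a regular canonical form on `V`: for vector fields which are regular along a prime
divisor `Q` over `V` the determinant of the coordinates is expanded in blocks by Gauss elimination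
with a minor of minimal order along `Q`. The trace of the product is a canonical form on `W`. Suppose
that two generic points `P`, `Q` of `W` have the same image under the map given by these forms. This
is a relation between the points of `V` below `P` and `Q` which is multilinear in the values of
the `f i`. At most `2 d i` points of `X i` occur if the first `i` coordinates are fixed, and they are
separated, so we can fix the coordinates one after the other. We come to the points with the same
coordinates in all `X i` as a given point over `P`. If there are no such points over `Q` then the
differentials `φ` have trace zero on the image of `{x} × C` in `W × X 0 × ... × X (k - 1)`, this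
image is a rational curve, and `W` is uniruled. Otherwise the coordinates in the `X i` are algebraic
over the field of the ratios of the traces, and the image of the canonical map has dimension at least
`dim W - 1`. If the image of the canonical map is not `W` then the traces of the `φ` on these curves
are multiples of one of them, so the curves are rational or elliptic (by duality) and their images
cover `W`; then `W` is not of general type. Uniruled varieties have no pseudo-effective canonical
divisor.

The parts of the Lean proof on pull-backs, products, the geometric generic fibre, the
correspondences on rational curves and the traces on the fibres are due to helpers 123, 221, 442, 160,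
279, 603, 545, 281, 438, 277, 999, 297, 273 and 459.
-/

set_option autoImplicit false
set_option linter.overlappingInstances false
set_option maxHeartbeats 4000000
set_option synthInstance.maxHeartbeats 400000

open FF Module Pool.Agent Pool.Agent.W602.GT
open Pool.Agent.W619.PQ (IsUniruled)

namespace Pool.Agent.Results.MP_97d78d_ag.ProductsOfVarieties

/-- **The canonical forms separate `r` general points.** `E` is the function field of a variety `X` of
dimension `m`, and `D` a rational frame of the tangent bundle. The embeddings `σ : E → Ω` are the
generic points of `X` with coordinates in the field `Ω`. At most `r` different such points impose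
independent conditions on the canonical forms `ω` which are regular at all prime divisors: if
`∑ c σ * σ (ω D) = 0` for all `ω` then all the coefficients `c σ` are zero. -/
def SeparatesPoints (E : Type) [Field E] [Algebra ℂ E] (m r : ℕ) : Prop :=
  ∀ D : Fin m → Derivation ℂ E E, LinearIndependent E D →
    ∀ (Ω : Type) [Field Ω] [Algebra ℂ Ω] [IsAlgClosed Ω] (A : Finset (E →ₐ[ℂ] Ω)), A.card ≤ r →
    ∀ c : (E →ₐ[ℂ] Ω) → Ω,
    (∀ ω : (Fin m → Derivation ℂ E E) → E, IsPluri 1 ω →
      (∀ P : Place ℂ E, Divisorial m P → RegAt P ω) → ∑ σ ∈ A, c σ * σ (ω D) = 0) →
    ∀ σ ∈ A, c σ = 0

variable {K : Type} [Field K] [Algebra ℂ K] {k : ℕ}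

/-- The function field of the image `W_i` of `V` in the product of `W` and the first `i` factors.
Here `K` and `L` are the function fields of `V` and `W`, and `F l` is the one of the `l`-th
factor. -/
noncomputable def Img (F : Fin (k + 1) → IntermediateField ℂ K) (L : Type) [Field L] [Algebra L K]
    (i : ℕ) : IntermediateField L K :=
  IntermediateField.adjoin L {z | ∃ l : Fin (k + 1), l.val < i ∧ z ∈ F l}

/-- The degree over `W_i` of the image of `V` in the product of `W_i` and the `i`-th factor. -/
noncomputable def deg (F : Fin (k + 1) → IntermediateField ℂ K) (L : Type) [Field L] [Algebra L K]
    (i : Fin (k + 1)) : ℕ :=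
  finrank (Img F L i) (IntermediateField.adjoin (Img F L i) (F i : Set K))

theorem deg_eq (F : Fin (k + 1) → IntermediateField ℂ K) (L : Type) [Field L] [Algebra ℂ L]
    [Algebra L K] [IsScalarTower ℂ L K] [FiniteDimensional L K] (i : Fin (k + 1)) :
    deg F L i = finrank (N145.PC.MF F L (N145.PC.Js (k + 1) i))
      (IntermediateField.adjoin (N145.PC.MF F L (N145.PC.Js (k + 1) i)) (F i : Set K)) := by
  unfold deg Img
  rw [N145.SX.mf_eq]

/-- The image of the canonical map of the varieties with function field `L`, of dimension `w`, has
dimension at least `j`: there are canonical forms, regular at all prime divisors, with `j`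
algebraically independent ratios. (`KodGe` is the same for pluricanonical forms of some weight.) -/
def CanonicalImageDimGe (L : Type) [Field L] [Algebra ℂ L] (w j : ℕ) : Prop :=
  ∃ ω : Fin (j + 1) → (Fin w → Derivation ℂ L L) → L,
    (∀ i, IsPluri 1 (ω i) ∧ ∀ P : Place ℂ L, Divisorial w P → RegAt P (ω i)) ∧
    ∃ D, ω 0 D ≠ 0 ∧ AlgebraicIndependent ℂ (fun i : Fin j => ω i.succ D / ω 0 D)

/-- **Abundance for varieties dominated by the product of several varieties and a curve.** Let `K` be
the function field of the product `V` of the varieties with the function fields `F i`, `i < k`, of
dimension `m i`, and of the curve with the function field `F k`, i.e. `K` is the compositum and its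
transcendence degree is `∑ m i + 1`. Let `L ⊆ K` be the function field of a variety `W` such that the
extension is finite. Suppose that for all `i < k` the canonical forms of the `i`-th variety separate
`2 d i` general points, where `d i` is the degree over `W_i` of the image of `V` in the product of
`W_i` and this variety. Then: `K_W` is pseudo-effective if and only if `κ(W) ≥ ∑ m i = dim W - 1`, if
and only if `W` is not uniruled; and for all `j ≥ 0`, `κ(W) ≥ j` if and only if the image of the
canonical map of `W` has dimension at least `j`. -/
theorem result [Algebra.EssFiniteType ℂ K] (m : Fin k → ℕ)
    (F : Fin (k + 1) → IntermediateField ℂ K) [∀ i, Algebra.EssFiniteType ℂ (F i)]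
    [IsFF ℂ (F (Fin.last k))] (hF : ⨆ i, F i = ⊤)
    (hm : ∀ i : Fin k, Algebra.trdeg ℂ (F i.castSucc) = m i)
    (hK : Algebra.trdeg ℂ K = (∑ i, m i + 1 : ℕ)) (L : Type) [Field L] [Algebra ℂ L]
    [Algebra L K] [IsScalarTower ℂ L K] [FiniteDimensional L K]
    (hX : ∀ i : Fin k, SeparatesPoints (F i.castSucc) (m i) (2 * deg F L i.castSucc)) :
    [Psef ℂ L (∑ i, m i + 1) (fun _ => False),
      KodGe ℂ L (∑ i, m i + 1) (fun _ => False) (∑ i, m i),
      ¬ IsUniruled ℂ L (∑ i, m i + 1)].TFAE ∧
    ∀ j : ℕ, KodGe ℂ L (∑ i, m i + 1) (fun _ => False) j ↔
      CanonicalImageDimGe L (∑ i, m i + 1) j := by
  choose x D hx hD using fun i : Fin k => Pool.Agent.Y172.exists_crd (hm i)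
  have h := N145.SX.multi_all (L := L) hF hm hK hx
    (g := fun i => 2 * deg F L i.castSucc + 1)
    (fun i => N145.SX.sepX_of' (hx i) (hD i) fun Ω _ _ _ A hA c hc =>
      hX i (D i) (N145.SX.dual_indep (hD i)) Ω A hA c hc)
    (fun i => by
      rw [deg_eq]
      exact Nat.lt_succ_self _)
  exact ⟨h.1, h.2.2⟩

end Pool.Agent.Results.MP_97d78d_ag.ProductsOfVarieties
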